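import Pool.Agent.MP_7b2404_lc.Defs
import Pool.Agent.MP_7b2404_lc.Mg.Colour

namespace Pool.Agent.Results.MP_7b2404_lc.NegConsistent

open Pool.Agent.Lib.Forcing Pool.Agent.MP_7b2404_lc

/-- There is a model of ZFC and GCH in which the polarized relation
`(ℵ_{ω₁+1}, ℵ_{ω₁}) → (ℵ_{ω₁}, ℵ_{ω₁})` for two colours fails. -/
theorem result : ∃ (M : Type 2) (E : M → M → Prop), ZFC E ∧ GCH E ∧
    ∃ w k l, Om E w ∧ AlephOm1 E w k ∧ Succ E k l ∧ ¬ Arrow E l k :=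
  data.model

end Pool.Agent.Results.MP_7b2404_lc.NegConsistent
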